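import Mathlib

set_option autoImplicit false

namespace Pool.Agent.MP_7aba48_co

open Finset

section Combinatorial

variable {V C : Type*} [Fintype V] [DecidableEq V] [DecidableEq C]
variable (G : SimpleGraph V) [DecidableRel G.Adj] (c₀ : C) (Λ : V → Finset C)

/-- proper list colourings of the subgraph induced on `S`, extended by `c₀` outside `S` -/
def Col (S : Finset V) : Finset (V → C) :=
  (Fintype.piFinset (fun v => if v ∈ S then Λ v else {c₀})).filter
    (fun f => ∀ u ∈ S, ∀ w ∈ S, G.Adj u w → f u ≠ f w)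

/-- colours of the list of `v` not used by the neighbours of `v` in `S` -/
def avail (S : Finset V) (v : V) (f : V → C) : Finset C :=
  (Λ v).filter (fun c => ∀ w ∈ S, G.Adj v w → f w ≠ c)

/-- colours of the list of `v` not used on `R` -/
def free (v : V) (R : Finset V) (f : V → C) : Finset C :=
  (Λ v).filter (fun c => ∀ u ∈ R, f u ≠ c)

variable {G c₀ Λ}

lemma mem_Col {S : Finset V} {f : V → C} :
    f ∈ Col G c₀ Λ S ↔ (∀ v ∈ S, f v ∈ Λ v) ∧ (∀ v, v ∉ S → f v = c₀) ∧
      (∀ u ∈ S, ∀ w ∈ S, G.Adj u w → f u ≠ f w) := by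
  unfold Col
  rw [mem_filter, Fintype.mem_piFinset]
  constructor
  · rintro ⟨h, h2⟩
    refine ⟨fun v hv => ?_, fun v hv => ?_, h2⟩
    · have := h v
      rwa [if_pos hv] at this
    · have := h v
      rw [if_neg hv] at this
      simpa using this
  · rintro ⟨h1, h2, h3⟩
    refine ⟨fun v => ?_, h3⟩
    by_cases hv : v ∈ S
    · rw [if_pos hv]; exact h1 v hv
    · rw [if_neg hv]; simp [h2 v hv]

lemma mem_avail {S : Finset V} {v : V} {f : V → C} {c : C} :
    c ∈ avail G Λ S v f ↔ c ∈ Λ v ∧ ∀ w ∈ S, G.Adj v w → f w ≠ c := by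
  unfold avail; rw [mem_filter]

lemma mem_free {v : V} {R : Finset V} {f : V → C} {c : C} :
    c ∈ free Λ v R f ↔ c ∈ Λ v ∧ ∀ u ∈ R, f u ≠ c := by
  unfold free; rw [mem_filter]

/-- changing the colour of a vertex that is not a neighbour does not change the available set -/
lemma avail_update {S : Finset V} {u u' : V} (huu : ¬ G.Adj u' u) (g : V → C) (c : C) :
    avail G Λ S u' (Function.update g u c) = avail G Λ (S.erase u) u' g := by
  ext x
  rw [mem_avail, mem_avail]
  refine and_congr_right fun _ => ⟨fun h w hw hadj => ?_, fun h w hw hadj => ?_⟩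
  · have hne : w ≠ u := (mem_erase.1 hw).1
    have := h w (mem_erase.1 hw).2 hadj
    rwa [Function.update_of_ne hne] at this
  · have hne : w ≠ u := by rintro rfl; exact huu hadj
    rw [Function.update_of_ne hne]
    exact h w (mem_erase.2 ⟨hne, hw⟩) hadj

lemma sum_Col_eq {S : Finset V} {u : V} (hu : u ∈ S) (F : (V → C) → ℝ) :
    ∑ f ∈ Col G c₀ Λ S, F f = ∑ g ∈ Col G c₀ Λ (S.erase u),
      ∑ c ∈ avail G Λ (S.erase u) u g, F (Function.update g u c) := by
  classical
  rw [Finset.sum_sigma']
  refine Finset.sum_bij' (fun f _ => (⟨Function.update f u c₀, f u⟩ : (_ : V → C) × C))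
    (fun p _ => Function.update p.1 u p.2) ?_ ?_ ?_ ?_ ?_
  · intro f hf
    rw [mem_Col] at hf
    obtain ⟨h1, h2, h3⟩ := hf
    rw [mem_sigma]
    constructor
    · rw [mem_Col]
      refine ⟨fun v hv => ?_, fun v hv => ?_, fun v hv w hw hadj => ?_⟩
      · have hne : v ≠ u := (mem_erase.1 hv).1
        simp only
        rw [Function.update_of_ne hne]
        exact h1 v (mem_erase.1 hv).2
      · by_cases hvu : v = u
        · subst hvu; simp
        · simp only
          rw [Function.update_of_ne hvu]
          exact h2 v (fun h => hv (mem_erase.2 ⟨hvu, h⟩))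
      · have hne : v ≠ u := (mem_erase.1 hv).1
        have hne' : w ≠ u := (mem_erase.1 hw).1
        simp only
        rw [Function.update_of_ne hne, Function.update_of_ne hne']
        exact h3 v (mem_erase.1 hv).2 w (mem_erase.1 hw).2 hadj
    · simp only
      rw [mem_avail]
      refine ⟨h1 u hu, fun w hw hadj => ?_⟩
      have hne : w ≠ u := (mem_erase.1 hw).1
      rw [Function.update_of_ne hne]
      exact fun h => h3 u hu w (mem_erase.1 hw).2 hadj h.symm
  · intro p hp
    rw [mem_sigma] at hp
    obtain ⟨hp1, hp2⟩ := hp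
    rw [mem_Col] at hp1
    rw [mem_avail] at hp2
    obtain ⟨h1, h2, h3⟩ := hp1
    rw [mem_Col]
    refine ⟨fun v hv => ?_, fun v hv => ?_, fun v hv w hw hadj => ?_⟩
    · by_cases hvu : v = u
      · subst hvu; simpa using hp2.1
      · rw [Function.update_of_ne hvu]
        exact h1 v (mem_erase.2 ⟨hvu, hv⟩)
    · have hvu : v ≠ u := by rintro rfl; exact hv hu
      rw [Function.update_of_ne hvu]
      exact h2 v (fun h => hv (mem_erase.1 h).2)
    · by_cases hvu : v = u
      · subst hvu
        have hwu : w ≠ v := hadj.ne'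
        rw [Function.update_self, Function.update_of_ne hwu]
        exact (hp2.2 w (mem_erase.2 ⟨hwu, hw⟩) hadj).symm
      · by_cases hwu : w = u
        · subst hwu
          rw [Function.update_self, Function.update_of_ne hvu]
          exact hp2.2 v (mem_erase.2 ⟨hvu, hv⟩) hadj.symm
        · rw [Function.update_of_ne hvu, Function.update_of_ne hwu]
          exact h3 v (mem_erase.2 ⟨hvu, hv⟩) w (mem_erase.2 ⟨hwu, hw⟩) hadj
  · intro f hf
    simp
  · intro p hp
    rw [mem_sigma, mem_Col] at hp
    obtain ⟨⟨_, h2, _⟩, _⟩ := hp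
    have : p.1 u = c₀ := h2 u (fun h => (mem_erase.1 h).1 rfl)
    ext1
    · simp only
      rw [Function.update_idem]
      rw [← this]
      exact Function.update_eq_self u p.1
    · simp
  · intro f hf
    simp

/-- the elementary inequality behind negative association of occupancy -/
lemma one_add_sum_le_prod (T : Finset C) (a : C → ℝ) (ha : ∀ c ∈ T, 0 ≤ a c) :
    1 + ∑ c ∈ T, a c ≤ ∏ c ∈ T, (1 + a c) := by
  classical
  induction T using Finset.induction_on with
  | empty => simp
  | insert x s hx ih =>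
    rw [sum_insert hx, prod_insert hx]
    have h1 := ih (fun c hc => ha c (mem_insert_of_mem hc))
    have h2 : 0 ≤ a x := ha x (mem_insert_self x s)
    have h3 : 0 ≤ ∑ c ∈ s, a c := sum_nonneg fun c hc => ha c (mem_insert_of_mem hc)
    nlinarith [mul_nonneg h2 h3, mul_le_mul_of_nonneg_left h1 (by linarith : (0:ℝ) ≤ 1 + a x)]

lemma sum_prod_erase_le (T L : Finset C) (hL : L.Nonempty) (g : C → ℝ)
    (hg : ∀ c ∈ T, 0 < g c ∧ g c ≤ 1) :
    ∑ c' ∈ L, ∏ c ∈ T.erase c', g c ≤
      (L.card : ℝ) * ∏ c ∈ T, (if c ∈ L then g c + (1 - g c) / L.card else g c) := by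
  classical
  have hl : (0:ℝ) < L.card := by exact_mod_cast hL.card_pos
  set P := ∏ c ∈ T, g c with hP
  have hPpos : 0 < P := prod_pos fun c hc => (hg c hc).1
  -- left side
  have hleft : ∑ c' ∈ L, ∏ c ∈ T.erase c', g c
      = P * (L.card + ∑ c ∈ T, if c ∈ L then (1 / g c - 1) else 0) := by
    have h1 : ∀ c' ∈ L, ∏ c ∈ T.erase c', g c = P * (1 + if c' ∈ T then (1 / g c' - 1) else 0) := by
      intro c' _
      by_cases hc : c' ∈ T
      · rw [if_pos hc]
        have := mul_prod_erase T g hc
        have hne : g c' ≠ 0 := (hg c' hc).1.ne'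
        field_simp
        rw [mul_comm, this]
        try ring
      · rw [if_neg hc, erase_eq_of_notMem hc]
        simp [hP]
    rw [sum_congr rfl h1, ← mul_sum, sum_add_distrib]
    congr 1
    rw [sum_const, nsmul_eq_mul, mul_one]
    congr 1
    rw [← sum_filter, ← sum_filter]
    apply sum_congr _ (fun _ _ => rfl)
    ext x
    simp only [mem_filter]
    tauto
  have hright : ∏ c ∈ T, (if c ∈ L then g c + (1 - g c) / L.card else g c)
      = P * ∏ c ∈ T, (1 + if c ∈ L then (1 / g c - 1) / L.card else 0) := by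
    rw [hP, ← prod_mul_distrib]
    apply prod_congr rfl
    intro c hc
    have hne : g c ≠ 0 := (hg c hc).1.ne'
    by_cases hcL : c ∈ L
    · rw [if_pos hcL, if_pos hcL]
      field_simp
      try ring
    · rw [if_neg hcL, if_neg hcL]
      ring
  rw [hleft, hright]
  have hkey := one_add_sum_le_prod T (fun c => if c ∈ L then (1 / g c - 1) / L.card else 0) (by
    intro c hc
    split_ifs
    · have := hg c hc
      have h1 : 1 ≤ 1 / g c := by
        rw [le_div_iff₀ this.1]; linarith [this.2]
      exact div_nonneg (by linarith) hl.le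
    · exact le_rfl)
  have hsum : ∑ c ∈ T, (if c ∈ L then (1 / g c - 1) / (L.card : ℝ) else 0)
      = (∑ c ∈ T, if c ∈ L then (1 / g c - 1) else 0) / L.card := by
    rw [sum_div]
    apply sum_congr rfl
    intro c _
    split_ifs <;> simp
  rw [hsum] at hkey
  have h2 : (L.card : ℝ) + ∑ c ∈ T, (if c ∈ L then (1 / g c - 1) else 0)
      ≤ L.card * ∏ c ∈ T, (1 + if c ∈ L then (1 / g c - 1) / (L.card : ℝ) else 0) := by
    have := mul_le_mul_of_nonneg_left hkey hl.le
    rw [mul_add, mul_one, mul_div_cancel₀ _ hl.ne'] at this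
    exact this
  calc P * (L.card + ∑ c ∈ T, if c ∈ L then (1 / g c - 1) else 0)
      ≤ P * (L.card * ∏ c ∈ T, (1 + if c ∈ L then (1 / g c - 1) / (L.card : ℝ) else 0)) :=
        mul_le_mul_of_nonneg_left h2 hPpos.le
    _ = _ := by ring

/-- expected proportion factor: the probability that no vertex of `W` takes the colour `c` after
resampling `W` -/
noncomputable def pr (G : SimpleGraph V) [DecidableRel G.Adj] (Λ : V → Finset C) (S : Finset V)
    (f : V → C) (W : Finset V) (c : C) : ℝ :=
  ∏ u ∈ W, (if c ∈ avail G Λ S u f then 1 - 1 / ((avail G Λ S u f).card : ℝ) else 1)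

lemma pr_nonneg {S : Finset V} {f : V → C} {W : Finset V} {c : C} :
    0 ≤ pr G Λ S f W c := by
  unfold pr
  apply prod_nonneg
  intro u _
  split_ifs with h
  · have : (1:ℝ) ≤ (avail G Λ S u f).card := by
      exact_mod_cast card_pos.2 ⟨c, h⟩
    have h2 : 1 / ((avail G Λ S u f).card : ℝ) ≤ 1 := by
      rw [div_le_one (by linarith)]; exact this
    linarith
  · norm_num

lemma pr_le_one {S : Finset V} {f : V → C} {W : Finset V} {c : C} :
    pr G Λ S f W c ≤ 1 := by
  unfold pr
  apply prod_le_one
  · intro u _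
    split_ifs with h
    · have : (1:ℝ) ≤ (avail G Λ S u f).card := by
        exact_mod_cast card_pos.2 ⟨c, h⟩
      have h2 : 1 / ((avail G Λ S u f).card : ℝ) ≤ 1 := by
        rw [div_le_one (by linarith)]; exact this
      linarith
    · norm_num
  · intro u _
    split_ifs with h
    · have : (0:ℝ) ≤ 1 / ((avail G Λ S u f).card : ℝ) := by positivity
      linarith
    · norm_num

/-- one resampling step -/
lemma step {S U R : Finset V} {v u : V} {lam : ℝ} (hlam0 : 0 ≤ lam) (hlam : lam < 1)
    (hUS : U ⊆ S) (hU : ∀ x ∈ U, ∀ y ∈ U, ¬ G.Adj x y) (hu : u ∈ U) (huR : u ∉ R) :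
    ∑ f ∈ Col G c₀ Λ S, ∏ c ∈ free Λ v (insert u R) f, (1 - lam * pr G Λ S f (U \ insert u R) c) ≤
    ∑ f ∈ Col G c₀ Λ S, ∏ c ∈ free Λ v R f, (1 - lam * pr G Λ S f (U \ R) c) := by
  classical
  rw [sum_Col_eq (hUS hu), sum_Col_eq (hUS hu)]
  apply sum_le_sum
  intro g hg
  set L := avail G Λ (S.erase u) u g with hL
  by_cases hLe : L.Nonempty
  swap
  · rw [not_nonempty_iff_eq_empty] at hLe
    rw [hLe]; simp
  set T := free Λ v R g with hT
  -- the probability factor does not depend on the colour of u
  set p : C → ℝ := fun c => ∏ w ∈ U \ insert u R,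
    (if c ∈ avail G Λ (S.erase u) w g then 1 - 1 / ((avail G Λ (S.erase u) w g).card : ℝ) else 1)
    with hp
  have hav : ∀ w ∈ U, ∀ c', avail G Λ S w (Function.update g u c') = avail G Λ (S.erase u) w g :=
    fun w hw c' => avail_update (hU w hw u hu) g c'
  have hpr1 : ∀ c' c, pr G Λ S (Function.update g u c') (U \ insert u R) c = p c := by
    intro c' c
    unfold pr
    apply prod_congr rfl
    intro w hw
    rw [hav w (mem_sdiff.1 hw).1]
  have hpr2 : ∀ c' c, pr G Λ S (Function.update g u c') (U \ R) c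
      = (if c ∈ L then 1 - 1 / (L.card : ℝ) else 1) * p c := by
    intro c' c
    have hins : U \ R = insert u (U \ insert u R) := by
      ext x
      simp only [mem_sdiff, mem_insert]
      constructor
      · rintro ⟨h1, h2⟩
        by_cases hx : x = u
        · exact Or.inl hx
        · exact Or.inr ⟨h1, by tauto⟩
      · rintro (h | ⟨h1, h2⟩)
        · subst h; exact ⟨hu, huR⟩
        · exact ⟨h1, by tauto⟩
    rw [hins]
    unfold pr
    rw [prod_insert (by simp)]
    rw [hav u hu]
    congr 1
    apply prod_congr rfl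
    intro w hw
    rw [hav w (mem_sdiff.1 hw).1]
  have hfree1 : ∀ c', free Λ v R (Function.update g u c') = T := by
    intro c'
    rw [hT]
    ext x
    rw [mem_free, mem_free]
    refine and_congr_right fun _ => ⟨fun h w hw => ?_, fun h w hw => ?_⟩
    · have hne : w ≠ u := by rintro rfl; exact huR hw
      have := h w hw
      rwa [Function.update_of_ne hne] at this
    · have hne : w ≠ u := by rintro rfl; exact huR hw
      rw [Function.update_of_ne hne]
      exact h w hw
  have hfree2 : ∀ c', free Λ v (insert u R) (Function.update g u c') = T.erase c' := by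
    intro c'
    rw [← hfree1 c']
    ext x
    rw [mem_erase, mem_free, mem_free]
    constructor
    · rintro ⟨h1, h2⟩
      refine ⟨?_, h1, fun w hw => h2 w (mem_insert_of_mem hw)⟩
      have := h2 u (mem_insert_self u R)
      rw [Function.update_self] at this
      exact this.symm
    · rintro ⟨h1, h2, h3⟩
      refine ⟨h2, fun w hw => ?_⟩
      rcases mem_insert.1 hw with h | h
      · subst h; rw [Function.update_self]; exact h1.symm
      · exact h3 w h
  have hp0 : ∀ c, 0 ≤ p c := fun c => by
    rw [← hpr1 c₀ c]; exact pr_nonneg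
  have hp1 : ∀ c, p c ≤ 1 := fun c => by
    rw [← hpr1 c₀ c]; exact pr_le_one
  simp only [hfree1, hfree2, hpr1, hpr2]
  rw [sum_const, nsmul_eq_mul]
  refine (sum_prod_erase_le T L hLe (fun c => 1 - lam * p c) ?_).trans (le_of_eq ?_)
  · intro c _
    have h1 : lam * p c ≤ lam * 1 := mul_le_mul_of_nonneg_left (hp1 c) hlam0
    have h2 : 0 ≤ lam * p c := mul_nonneg hlam0 (hp0 c)
    constructor <;> linarith
  · congr 1
    apply prod_congr rfl
    intro c _
    have hl : (0:ℝ) < L.card := by exact_mod_cast hLe.card_pos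
    by_cases hc : c ∈ L
    · rw [if_pos hc, if_pos hc]
      field_simp
      ring
    · rw [if_neg hc, if_neg hc, one_mul]

lemma telescope {S U : Finset V} {v : V} {lam : ℝ} (hlam0 : 0 ≤ lam) (hlam : lam < 1)
    (hUS : U ⊆ S) (hU : ∀ x ∈ U, ∀ y ∈ U, ¬ G.Adj x y) :
    ∀ R : Finset V, R ⊆ U →
    ∑ f ∈ Col G c₀ Λ S, ∏ c ∈ free Λ v R f, (1 - lam * pr G Λ S f (U \ R) c) ≤
    ∑ f ∈ Col G c₀ Λ S, ∏ c ∈ Λ v, (1 - lam * pr G Λ S f U c) := by
  classical
  intro R
  induction R using Finset.induction_on with
  | empty =>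
    intro _
    apply le_of_eq
    apply sum_congr rfl
    intro f _
    have : free Λ v ∅ f = Λ v := by
      unfold free; simp
    rw [this, sdiff_empty]
  | insert u R huR ih =>
    intro h
    have hRU : R ⊆ U := (subset_insert u R).trans h
    exact (step hlam0 hlam hUS hU (h (mem_insert_self u R)) huR).trans (ih hRU)

/-- upper bound for the exponential moment of the number of free colours -/
lemma moment_le {S U : Finset V} {v : V} {lam : ℝ} (hlam0 : 0 ≤ lam) (hlam : lam < 1)
    (hUS : U ⊆ S) (hU : ∀ x ∈ U, ∀ y ∈ U, ¬ G.Adj x y) :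
    ∑ f ∈ Col G c₀ Λ S, (1 - lam) ^ (free Λ v U f).card ≤
    ∑ f ∈ Col G c₀ Λ S, ∏ c ∈ Λ v, (1 - lam * pr G Λ S f U c) := by
  refine le_trans (le_of_eq ?_) (telescope hlam0 hlam hUS hU U (Subset.refl U))
  apply sum_congr rfl
  intro f _
  rw [sdiff_self]
  have : ∀ c, pr G Λ S f (⊥ : Finset V) c = 1 := by
    intro c; unfold pr; simp
  simp only [this, mul_one]
  rw [prod_const]

/-- sum over colourings of a function of the number of available colours at a vertex `u ∈ S`,
divided by that number -/
lemma sum_div_avail {S : Finset V} {u : V} (hu : u ∈ S) (h : ℕ → ℝ) (h0 : h 0 ≤ 0) :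
    ∑ g ∈ Col G c₀ Λ (S.erase u), h (avail G Λ (S.erase u) u g).card ≤
    ∑ f ∈ Col G c₀ Λ S, h (avail G Λ S u f).card / (avail G Λ S u f).card := by
  classical
  rw [sum_Col_eq hu]
  apply sum_le_sum
  intro g _
  have : ∀ c, avail G Λ S u (Function.update g u c) = avail G Λ (S.erase u) u g :=
    fun c => avail_update (G.loopless.irrefl u) g c
  simp only [this]
  rw [sum_const, nsmul_eq_mul]
  by_cases hc : (avail G Λ (S.erase u) u g).card = 0
  · rw [hc]; simpa using h0
  · have : ((avail G Λ (S.erase u) u g).card : ℝ) ≠ 0 := by exact_mod_cast hc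
    rw [mul_div_cancel₀ _ this]

end Combinatorial

end Pool.Agent.MP_7aba48_co
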