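import Mathlib
import Pool.Agent.Lib.MP_7aba48_co.Col

set_option autoImplicit false

namespace Pool.Agent.MP_7aba48_co

open Finset

section MainInd

variable {V C : Type*} [Fintype V] [DecidableEq V] [DecidableEq C]
variable {G : SimpleGraph V} [DecidableRel G.Adj] {c₀ : C} {Λ : V → Finset C}

/-- the local inequality needed at a vertex -/
def LocalIneq (V C : Type*) [DecidableEq C] (q d : ℕ) (lam τ β : ℝ) : Prop :=
  ∀ (U : Finset V) (L : V → Finset C) (T : Finset C), T.card = q → U.card ≤ d →
    (∀ u ∈ U, (L u).Nonempty) →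
    ∏ c ∈ T, (1 - lam * ∏ u ∈ U, (if c ∈ L u then 1 - 1 / ((L u).card : ℝ) else 1)) ≤
      τ - β * ∑ u ∈ U, (τ - (1 - lam) ^ (L u).card) / (L u).card

theorem main_ind {q d : ℕ} {lam τ β : ℝ} (hlam0 : 0 ≤ lam) (hlam : lam < 1) (hτ : τ ≤ 1)
    (hβ : 0 ≤ β) (hloc : LocalIneq V C q d lam τ β)
    (hG : ∀ x y z, G.Adj x y → G.Adj x z → ¬ G.Adj y z)
    (hdeg : ∀ v, (univ.filter (fun w => G.Adj v w)).card ≤ d + 1)
    (hΛ : ∀ v, (Λ v).card = q) :
    ∀ n : ℕ, ∀ S : Finset V, S.card = n → ∀ v, v ∉ S → ∀ U : Finset V, U ⊆ S →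
      (∀ u ∈ U, G.Adj v u) → U.card ≤ d →
      0 ≤ ∑ f ∈ Col G c₀ Λ S, (τ - (1 - lam) ^ (free Λ v U f).card) := by
  classical
  intro n
  induction n with
  | zero =>
    intro S hS v hv U hUS hUv hUd
    have hS' : S = ∅ := card_eq_zero.1 hS
    have hU' : U = ∅ := by rw [hS'] at hUS; exact subset_empty.1 hUS
    subst hU'
    apply sum_nonneg
    intro f _
    have h := hloc ∅ (fun _ => ∅) (Λ v) (hΛ v) (by simp) (by simp)
    simp only [prod_empty, mul_one, sum_empty, mul_zero, sub_zero] at h
    rw [prod_const] at h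
    have : free Λ v ∅ f = Λ v := by unfold free; simp
    rw [this]; linarith
  | succ n ih =>
    intro S hS v hv U hUS hUv hUd
    have hUind : ∀ x ∈ U, ∀ y ∈ U, ¬ G.Adj x y :=
      fun x hx y hy => hG v x y (hUv x hx) (hUv y hy)
    have hmom := moment_le (G := G) (c₀ := c₀) (Λ := Λ) (v := v) hlam0 hlam hUS hUind
    have hpoint : ∀ f ∈ Col G c₀ Λ S, ∏ c ∈ Λ v, (1 - lam * pr G Λ S f U c) ≤
        τ - β * ∑ u ∈ U, (τ - (1 - lam) ^ (avail G Λ S u f).card) / (avail G Λ S u f).card := by
      intro f hf
      unfold pr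
      refine hloc U (fun u => avail G Λ S u f) (Λ v) (hΛ v) hUd ?_
      intro u hu
      rw [mem_Col] at hf
      refine ⟨f u, mem_avail.2 ⟨hf.1 u (hUS hu), fun w hw hadj => ?_⟩⟩
      exact (hf.2.2 u (hUS hu) w hw hadj).symm
    have hsum := sum_le_sum hpoint
    have h1 : ∑ f ∈ Col G c₀ Λ S, (τ - (1 - lam) ^ (free Λ v U f).card)
        ≥ ∑ f ∈ Col G c₀ Λ S, β * ∑ u ∈ U,
          (τ - (1 - lam) ^ (avail G Λ S u f).card) / (avail G Λ S u f).card := by
      rw [sum_sub_distrib] at hsum ⊢
      linarith
    refine le_trans ?_ h1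
    rw [← mul_sum, sum_comm]
    apply mul_nonneg hβ
    apply sum_nonneg
    intro u hu
    refine le_trans ?_ (sum_div_avail (G := G) (c₀ := c₀) (Λ := Λ) (hUS hu)
      (fun k => τ - (1 - lam) ^ k) (by simpa using hτ))
    -- induction hypothesis for `S.erase u`
    have hcard : (S.erase u).card = n := by
      rw [card_erase_of_mem (hUS hu), hS]; rfl
    have hih := ih (S.erase u) hcard u (notMem_erase u S)
      ((S.erase u).filter (fun w => G.Adj u w)) (filter_subset _ _)
      (fun w hw => (mem_filter.1 hw).2) (by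
        have hsub : (S.erase u).filter (fun w => G.Adj u w) ⊆
            (univ.filter (fun w => G.Adj u w)).erase v := by
          intro w hw
          rw [mem_filter] at hw
          rw [mem_erase, mem_filter]
          refine ⟨?_, mem_univ _, hw.2⟩
          rintro rfl
          exact hv (mem_erase.1 hw.1).2
        have hvmem : v ∈ univ.filter (fun w => G.Adj u w) := by
          rw [mem_filter]; exact ⟨mem_univ _, (hUv u hu).symm⟩
        have := card_le_card hsub
        rw [card_erase_of_mem hvmem] at this
        have := hdeg u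
        omega)
    refine le_trans hih (le_of_eq ?_)
    apply sum_congr rfl
    intro g _
    have : free Λ u ((S.erase u).filter (fun w => G.Adj u w)) g = avail G Λ (S.erase u) u g := by
      ext x
      rw [mem_free, mem_avail]
      refine and_congr_right fun _ => ⟨fun h w hw hadj => ?_, fun h w hw => ?_⟩
      · exact h w (mem_filter.2 ⟨hw, hadj⟩)
      · exact h w (mem_filter.1 hw).1 (mem_filter.1 hw).2
    rw [this]

theorem col_nonempty {q d : ℕ} {lam τ β : ℝ} (hlam0 : 0 ≤ lam) (hlam : lam < 1)
    (hτ : τ < 1 - lam) (hβ : 0 ≤ β) (hloc : LocalIneq V C q d lam τ β)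
    (hG : ∀ x y z, G.Adj x y → G.Adj x z → ¬ G.Adj y z)
    (hdeg : ∀ v, (univ.filter (fun w => G.Adj v w)).card ≤ d + 1)
    (hΛ : ∀ v, (Λ v).card = q) (S : Finset V) : (Col G c₀ Λ S).Nonempty := by
  classical
  induction S using Finset.induction_on with
  | empty =>
    refine ⟨fun _ => c₀, ?_⟩
    rw [mem_Col]
    refine ⟨by simp, by simp, by simp⟩
  | insert v S hv ih =>
    by_contra hne
    -- no colouring of S extends to v
    have hnone : ∀ f ∈ Col G c₀ Λ S, avail G Λ S v f = ∅ := by
      intro f hf
      by_contra hav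
      rw [← ne_eq, ← nonempty_iff_ne_empty] at hav
      obtain ⟨c, hc⟩ := hav
      apply hne
      refine ⟨Function.update f v c, ?_⟩
      rw [mem_Col] at hf ⊢
      rw [mem_avail] at hc
      obtain ⟨h1, h2, h3⟩ := hf
      refine ⟨fun w hw => ?_, fun w hw => ?_, fun x hx y hy hadj => ?_⟩
      · by_cases hwv : w = v
        · subst hwv; simpa using hc.1
        · rw [Function.update_of_ne hwv]
          exact h1 w ((mem_insert.1 hw).resolve_left hwv)
      · have hwv : w ≠ v := by rintro rfl; exact hw (mem_insert_self _ _)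
        rw [Function.update_of_ne hwv]
        exact h2 w (fun h => hw (mem_insert_of_mem h))
      · by_cases hxv : x = v
        · subst hxv
          have hyx : y ≠ x := hadj.ne'
          rw [Function.update_self, Function.update_of_ne hyx]
          exact (hc.2 y ((mem_insert.1 hy).resolve_left hyx) hadj).symm
        · by_cases hyv : y = v
          · subst hyv
            rw [Function.update_self, Function.update_of_ne hxv]
            exact hc.2 x ((mem_insert.1 hx).resolve_left hxv) hadj.symm
          · rw [Function.update_of_ne hxv, Function.update_of_ne hyv]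
            exact h3 x ((mem_insert.1 hx).resolve_left hxv) y ((mem_insert.1 hy).resolve_left hyv)
              hadj
    -- choose at most d neighbours, missing at most one
    set N := S.filter (fun w => G.Adj v w) with hN
    have hNd : N.card ≤ d + 1 := by
      refine (card_le_card ?_).trans (hdeg v)
      intro w hw
      rw [hN, mem_filter] at hw
      rw [mem_filter]; exact ⟨mem_univ _, hw.2⟩
    obtain ⟨U, hUN, hUd, hUmiss⟩ : ∃ U ⊆ N, U.card ≤ d ∧ ∃ u₀, ∀ w ∈ N, w ∉ U → w = u₀ := by
      by_cases hcase : N.card ≤ d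
      · exact ⟨N, Subset.refl _, hcase, v, fun w hw hw' => absurd hw hw'⟩
      · have hNe : N.Nonempty := by
          rw [← card_pos]; omega
        obtain ⟨u₀, hu₀⟩ := hNe
        refine ⟨N.erase u₀, erase_subset _ _, ?_, u₀, ?_⟩
        · rw [card_erase_of_mem hu₀]; omega
        · intro w hw hw'
          by_contra h
          exact hw' (mem_erase.2 ⟨h, hw⟩)
    obtain ⟨u₀, hu₀⟩ := hUmiss
    have hI := main_ind (G := G) (c₀ := c₀) (Λ := Λ) hlam0 hlam (by linarith : τ ≤ 1) hβ hloc hG hdeg
      hΛ S.card S rfl v hv U (hUN.trans (filter_subset _ _))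
      (fun u hu => (mem_filter.1 (hUN hu)).2) hUd
    have hneg : ∑ f ∈ Col G c₀ Λ S, (τ - (1 - lam) ^ (free Λ v U f).card) < 0 := by
      apply sum_neg ?_ ih
      intro f hf
      have hcard : (free Λ v U f).card ≤ 1 := by
        rw [card_le_one]
        have hx : ∀ x ∈ free Λ v U f, x = f u₀ := by
          intro x hx
          rw [mem_free] at hx
          by_contra hxne
          have : x ∈ avail G Λ S v f := by
            rw [mem_avail]
            refine ⟨hx.1, fun w hw hadj => ?_⟩
            by_cases hwU : w ∈ U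
            · exact hx.2 w hwU
            · have := hu₀ w (mem_filter.2 ⟨hw, hadj⟩) hwU
              subst this
              exact fun h => hxne h.symm
          rw [hnone f hf] at this
          exact notMem_empty _ this
        intro a ha b hb
        rw [hx a ha, hx b hb]
      have hpow : 1 - lam ≤ (1 - lam) ^ (free Λ v U f).card := by
        interval_cases h : (free Λ v U f).card
        · simp; linarith
        · simp
      linarith
    linarith

end MainInd

end Pool.Agent.MP_7aba48_co
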