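import Mathlib

set_option autoImplicit false

namespace Pool.Agent.MP_7aba48_co

open Finset

/-- upper bounds for `-l * log (1 - 1/l)` -/
noncomputable def K : ℕ → ℝ
  | 2 => (13863/10000)
  | 3 => (3041/2500)
  | 4 => (2877/2500)
  | 5 => (5579/5000)
  | 6 => (547/500)
  | 7 => (10791/10000)
  | 8 => (10683/10000)
  | 9 => (10601/10000)
  | 10 => (10537/10000)
  | 11 => (2097/2000)
  | _ => (523/500)

/-- cost of a list of size `l` for the tangent with parameter `s` -/
noncomputable def cost (s : ℝ) (l : ℕ) : ℝ := if l = 1 then 1 + s else K l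

/-- the potential divided by the size of the list -/
noncomputable def psi (l : ℕ) : ℝ := (19 / 50 - (1 - 113 / 500 : ℝ) ^ l) / l

lemma K_tail {l : ℕ} (hl : 12 ≤ l) : K l = 523 / 500 := by
  unfold K
  split
  all_goals first | omega | norm_num

lemma one_le_K (l : ℕ) : 1 ≤ K l := by
  unfold K
  split
  all_goals norm_num

lemma exp_ge_sum {x : ℝ} (hx : 0 ≤ x) (n : ℕ) (r : ℝ) (h : r ≤ ∑ i ∈ range n, x ^ i / (i.factorial : ℝ)) :
    r ≤ Real.exp x := h.trans (Real.sum_le_exp_of_nonneg hx n)

lemma exp_neg_le {x u : ℝ} (hx : 0 ≤ x) (n : ℕ) (hu : 0 < u)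
    (h : 1 ≤ u * ∑ i ∈ range n, x ^ i / (i.factorial : ℝ)) : Real.exp (-x) ≤ u := by
  have h1 : ∑ i ∈ range n, x ^ i / (i.factorial : ℝ) ≤ Real.exp x := Real.sum_le_exp_of_nonneg hx n
  rw [Real.exp_neg]
  have h2 : 0 < Real.exp x := Real.exp_pos x
  rw [inv_eq_one_div, div_le_iff₀ h2]
  exact h.trans (mul_le_mul_of_nonneg_left h1 hu.le)

lemma le_exp_neg {s E : ℝ} (hs : 0 ≤ s) (hs5 : s ≤ 5) (hE : 0 < E)
    (h : E * (∑ m ∈ range 9, (s / 5) ^ m / (m.factorial : ℝ) +
      (s / 5) ^ 9 * ((9 : ℕ) + 1) / ((Nat.factorial 9 : ℝ) * (9 : ℕ))) ^ 5 ≤ 1) :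
    E ≤ Real.exp (-s) := by
  have hx0 : 0 ≤ s / 5 := by positivity
  have hx1 : s / 5 ≤ 1 := by linarith
  have h1 := Real.exp_bound' hx0 hx1 (n := 9) (by norm_num)
  have h2 : Real.exp s = Real.exp (s / 5) ^ 5 := by
    rw [← Real.exp_nat_mul]; congr 1; push_cast; ring
  rw [Real.exp_neg, inv_eq_one_div, le_div_iff₀ (Real.exp_pos s), h2]
  refine le_trans (mul_le_mul_of_nonneg_left ?_ hE.le) h
  exact pow_le_pow_left₀ (Real.exp_pos _).le h1 5

/-- the bound defining `K` -/
lemma exp_neg_K_le {l : ℕ} (hl : 2 ≤ l) : Real.exp (-(K l / l)) ≤ 1 - 1 / l := by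
  by_cases h12 : 12 ≤ l
  · rw [K_tail h12]
    have hl' : (12:ℝ) ≤ l := by exact_mod_cast h12
    have hlpos : (0:ℝ) < l := by linarith
    have hy : (0:ℝ) ≤ 523 / 500 / l := by positivity
    have h1 := Real.add_one_le_exp (523 / 500 / (l:ℝ))
    have h3 : 1 + 523 / 500 / (l:ℝ) + (523 / 500 / (l:ℝ)) ^ 2 / 2 ≤ Real.exp (523 / 500 / (l:ℝ)) :=
      Real.quadratic_le_exp_of_nonneg hy
    rw [Real.exp_neg, inv_eq_one_div, div_le_iff₀ (Real.exp_pos _)]
    have h4 : (1:ℝ) ≤ (1 - 1 / l) * (1 + 523 / 500 / (l:ℝ) + (523 / 500 / (l:ℝ)) ^ 2 / 2) := by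
      have : (1 - 1 / (l:ℝ)) * (1 + 523 / 500 / (l:ℝ) + (523 / 500 / (l:ℝ)) ^ 2 / 2) - 1
          = ((23 / 500) * l ^ 2 + ((523 / 500) ^ 2 / 2 - 523 / 500) * l - (523 / 500) ^ 2 / 2) / l ^ 3 := by
        field_simp
        ring
      have h5 : 0 ≤ ((23 / 500) * (l:ℝ) ^ 2 + ((523 / 500) ^ 2 / 2 - 523 / 500) * l - (523 / 500) ^ 2 / 2) / l ^ 3 := by
        apply div_nonneg _ (by positivity)
        nlinarith
      linarith
    refine h4.trans (mul_le_mul_of_nonneg_left h3 ?_)
    have : 1 / (l:ℝ) ≤ 1 := by rw [div_le_one hlpos]; linarith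
    linarith
  · interval_cases l
    · have : K 2 = (13863/10000) := by unfold K; norm_num
      rw [this]
      refine exp_neg_le (by norm_num) 11 (by norm_num) ?_
      norm_num [Finset.sum_range_succ, Nat.factorial]
    · have : K 3 = (3041/2500) := by unfold K; norm_num
      rw [this]
      refine exp_neg_le (by norm_num) 8 (by norm_num) ?_
      norm_num [Finset.sum_range_succ, Nat.factorial]
    · have : K 4 = (2877/2500) := by unfold K; norm_num
      rw [this]
      refine exp_neg_le (by norm_num) 8 (by norm_num) ?_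
      norm_num [Finset.sum_range_succ, Nat.factorial]
    · have : K 5 = (5579/5000) := by unfold K; norm_num
      rw [this]
      refine exp_neg_le (by norm_num) 8 (by norm_num) ?_
      norm_num [Finset.sum_range_succ, Nat.factorial]
    · have : K 6 = (547/500) := by unfold K; norm_num
      rw [this]
      refine exp_neg_le (by norm_num) 8 (by norm_num) ?_
      norm_num [Finset.sum_range_succ, Nat.factorial]
    · have : K 7 = (10791/10000) := by unfold K; norm_num
      rw [this]
      refine exp_neg_le (by norm_num) 8 (by norm_num) ?_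
      norm_num [Finset.sum_range_succ, Nat.factorial]
    · have : K 8 = (10683/10000) := by unfold K; norm_num
      rw [this]
      refine exp_neg_le (by norm_num) 8 (by norm_num) ?_
      norm_num [Finset.sum_range_succ, Nat.factorial]
    · have : K 9 = (10601/10000) := by unfold K; norm_num
      rw [this]
      refine exp_neg_le (by norm_num) 8 (by norm_num) ?_
      norm_num [Finset.sum_range_succ, Nat.factorial]
    · have : K 10 = (10537/10000) := by unfold K; norm_num
      rw [this]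
      refine exp_neg_le (by norm_num) 8 (by norm_num) ?_
      norm_num [Finset.sum_range_succ, Nat.factorial]
    · have : K 11 = (2097/2000) := by unfold K; norm_num
      rw [this]
      refine exp_neg_le (by norm_num) 8 (by norm_num) ?_
      norm_num [Finset.sum_range_succ, Nat.factorial]

end Pool.Agent.MP_7aba48_co
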