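import Mathlib
import Pool.Agent.Lib.MP_7aba48_co.Num1

set_option autoImplicit false

namespace Pool.Agent.MP_7aba48_co

open Finset

lemma psi_tail {l : ℕ} (hl : 12 ≤ l) : psi l ≤ 19 / 600 := by
  unfold psi
  have hl' : (12:ℝ) ≤ l := by exact_mod_cast hl
  rw [div_le_iff₀ (by linarith)]
  have : (0:ℝ) ≤ (1 - 113 / 500 : ℝ) ^ l := by positivity
  nlinarith

/-- per neighbour inequality from finitely many checks -/
lemma pn_of {f s θ : ℝ} (h1 : 503 / 10000 * psi 1 + f * (1 + s) ≤ θ)
    (h2 : 503 / 10000 * psi 2 + f * K 2 ≤ θ)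
    (h3 : 503 / 10000 * psi 3 + f * K 3 ≤ θ)
    (h4 : 503 / 10000 * psi 4 + f * K 4 ≤ θ)
    (h5 : 503 / 10000 * psi 5 + f * K 5 ≤ θ)
    (h6 : 503 / 10000 * psi 6 + f * K 6 ≤ θ)
    (h7 : 503 / 10000 * psi 7 + f * K 7 ≤ θ)
    (h8 : 503 / 10000 * psi 8 + f * K 8 ≤ θ)
    (h9 : 503 / 10000 * psi 9 + f * K 9 ≤ θ)
    (h10 : 503 / 10000 * psi 10 + f * K 10 ≤ θ)
    (h11 : 503 / 10000 * psi 11 + f * K 11 ≤ θ)
    (h12 : 503 / 10000 * (19 / 600) + f * (523 / 500) ≤ θ) :
    ∀ l : ℕ, 1 ≤ l → 503 / 10000 * psi l + f * cost s l ≤ θ := by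
  intro l hl
  by_cases h : 12 ≤ l
  · have h1 : cost s l = 523 / 500 := by
      unfold cost
      rw [if_neg (by omega), K_tail h]
    rw [h1]
    have := psi_tail h
    linarith
  · unfold cost
    interval_cases l
    · simpa using h1
    · simpa using h2
    · simpa using h3
    · simpa using h4
    · simpa using h5
    · simpa using h6
    · simpa using h7
    · simpa using h8
    · simpa using h9
    · simpa using h10
    · simpa using h11

lemma cell {Y s E a b f θ u v μ B : ℝ} (hY : a ≤ Y) (hY' : Y ≤ b) (hab : a < b)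
    (hμ : E * Y ≤ μ) (hu : Real.exp (-(113 / 500 * E * a)) ≤ u)
    (hv : Real.exp (-(113 / 500 * E * b)) ≤ v)
    (h1 : 95 * θ - f * ((1 + s) * 50 - a) ≤ 19 / 50 - u)
    (h2 : 95 * θ - f * ((1 + s) * 50 - b) ≤ 19 / 50 - v)
    (hB : B + f * ((1 + s) * 50 - Y) ≤ 95 * θ) :
    Real.exp (-(113 / 500 * μ)) ≤ 19 / 50 - B := by
  have hba : 0 < b - a := by linarith
  set t := (Y - a) / (b - a) with ht
  have ht0 : 0 ≤ t := div_nonneg (by linarith) hba.le
  have ht1 : t ≤ 1 := by rw [ht, div_le_one hba]; linarith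
  have hYt : Y = (1 - t) * a + t * b := by
    rw [ht]; field_simp; ring
  have hconv := convexOn_exp.2 (Set.mem_univ (-(113 / 500 * E * a)))
    (Set.mem_univ (-(113 / 500 * E * b))) (by linarith : (0:ℝ) ≤ 1 - t) ht0 (by ring)
  simp only [smul_eq_mul] at hconv
  have hmid : (1 - t) * (-(113 / 500 * E * a)) + t * (-(113 / 500 * E * b)) = -(113 / 500 * E * Y) := by
    rw [hYt]; ring
  rw [hmid] at hconv
  have h3 : Real.exp (-(113 / 500 * μ)) ≤ Real.exp (-(113 / 500 * E * Y)) := by
    apply Real.exp_le_exp.2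
    nlinarith
  have h4 : (1 - t) * Real.exp (-(113 / 500 * E * a)) ≤
      (1 - t) * (19 / 50 - 95 * θ + f * ((1 + s) * 50 - a)) :=
    mul_le_mul_of_nonneg_left (by linarith) (by linarith)
  have h5 : t * Real.exp (-(113 / 500 * E * b)) ≤
      t * (19 / 50 - 95 * θ + f * ((1 + s) * 50 - b)) :=
    mul_le_mul_of_nonneg_left (by linarith) ht0
  have h6 : (1 - t) * (19 / 50 - 95 * θ + f * ((1 + s) * 50 - a)) +
      t * (19 / 50 - 95 * θ + f * ((1 + s) * 50 - b)) =
      19 / 50 - 95 * θ + f * ((1 + s) * 50 - Y) := by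
    rw [hYt]; ring
  linarith

lemma pn0 : ∀ l : ℕ, 1 ≤ l → 503 / 10000 * psi l + (1431/200000) * cost 2 l ≤ (46279/5000000) :=
  pn_of (f := (1431/200000)) (s := 2) (θ := (46279/5000000))
      (by norm_num [psi])
      (by norm_num [psi, K])
      (by norm_num [psi, K])
      (by norm_num [psi, K])
      (by norm_num [psi, K])
      (by norm_num [psi, K])
      (by norm_num [psi, K])
      (by norm_num [psi, K])
      (by norm_num [psi, K])
      (by norm_num [psi, K])
      (by norm_num [psi, K])
      (by norm_num)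

lemma pn1 : ∀ l : ℕ, 1 ≤ l → 503 / 10000 * psi l + (2517/250000) * cost (11/5) l ≤ (61997/5000000) :=
  pn_of (f := (2517/250000)) (s := (11/5)) (θ := (61997/5000000))
      (by norm_num [psi])
      (by norm_num [psi, K])
      (by norm_num [psi, K])
      (by norm_num [psi, K])
      (by norm_num [psi, K])
      (by norm_num [psi, K])
      (by norm_num [psi, K])
      (by norm_num [psi, K])
      (by norm_num [psi, K])
      (by norm_num [psi, K])
      (by norm_num [psi, K])
      (by norm_num)

lemma pn2 : ∀ l : ℕ, 1 ≤ l → 503 / 10000 * psi l + (731/100000) * cost 3 l ≤ (9423/1000000) :=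
  pn_of (f := (731/100000)) (s := 3) (θ := (9423/1000000))
      (by norm_num [psi])
      (by norm_num [psi, K])
      (by norm_num [psi, K])
      (by norm_num [psi, K])
      (by norm_num [psi, K])
      (by norm_num [psi, K])
      (by norm_num [psi, K])
      (by norm_num [psi, K])
      (by norm_num [psi, K])
      (by norm_num [psi, K])
      (by norm_num [psi, K])
      (by norm_num)

lemma pn3 : ∀ l : ℕ, 1 ≤ l → 503 / 10000 * psi l + (6629/1000000) * cost (33/10) l ≤ (43441/5000000) :=
  pn_of (f := (6629/1000000)) (s := (33/10)) (θ := (43441/5000000))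
      (by norm_num [psi])
      (by norm_num [psi, K])
      (by norm_num [psi, K])
      (by norm_num [psi, K])
      (by norm_num [psi, K])
      (by norm_num [psi, K])
      (by norm_num [psi, K])
      (by norm_num [psi, K])
      (by norm_num [psi, K])
      (by norm_num [psi, K])
      (by norm_num [psi, K])
      (by norm_num)

lemma pn4 : ∀ l : ℕ, 1 ≤ l → 503 / 10000 * psi l + (643/100000) * cost (17/5) l ≤ (42369/5000000) :=
  pn_of (f := (643/100000)) (s := (17/5)) (θ := (42369/5000000))
      (by norm_num [psi])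
      (by norm_num [psi, K])
      (by norm_num [psi, K])
      (by norm_num [psi, K])
      (by norm_num [psi, K])
      (by norm_num [psi, K])
      (by norm_num [psi, K])
      (by norm_num [psi, K])
      (by norm_num [psi, K])
      (by norm_num [psi, K])
      (by norm_num [psi, K])
      (by norm_num)

lemma pn5 : ∀ l : ℕ, 1 ≤ l → 503 / 10000 * psi l + (3121/500000) * cost (7/2) l ≤ (20677/2500000) :=
  pn_of (f := (3121/500000)) (s := (7/2)) (θ := (20677/2500000))
      (by norm_num [psi])
      (by norm_num [psi, K])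
      (by norm_num [psi, K])
      (by norm_num [psi, K])
      (by norm_num [psi, K])
      (by norm_num [psi, K])
      (by norm_num [psi, K])
      (by norm_num [psi, K])
      (by norm_num [psi, K])
      (by norm_num [psi, K])
      (by norm_num [psi, K])
      (by norm_num)

lemma pn6 : ∀ l : ℕ, 1 ≤ l → 503 / 10000 * psi l + (5897/1000000) * cost (37/10) l ≤ (78983/10000000) :=
  pn_of (f := (5897/1000000)) (s := (37/10)) (θ := (78983/10000000))
      (by norm_num [psi])
      (by norm_num [psi, K])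
      (by norm_num [psi, K])
      (by norm_num [psi, K])
      (by norm_num [psi, K])
      (by norm_num [psi, K])
      (by norm_num [psi, K])
      (by norm_num [psi, K])
      (by norm_num [psi, K])
      (by norm_num [psi, K])
      (by norm_num [psi, K])
      (by norm_num)

lemma pn7 : ∀ l : ℕ, 1 ≤ l → 503 / 10000 * psi l + (1397/250000) * cost (39/10) l ≤ (591/78125) :=
  pn_of (f := (1397/250000)) (s := (39/10)) (θ := (591/78125))
      (by norm_num [psi])
      (by norm_num [psi, K])
      (by norm_num [psi, K])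
      (by norm_num [psi, K])
      (by norm_num [psi, K])
      (by norm_num [psi, K])
      (by norm_num [psi, K])
      (by norm_num [psi, K])
      (by norm_num [psi, K])
      (by norm_num [psi, K])
      (by norm_num [psi, K])
      (by norm_num)

lemma pn8 : ∀ l : ℕ, 1 ≤ l → 503 / 10000 * psi l + (531/100000) * cost (41/10) l ≤ (9081/1250000) :=
  pn_of (f := (531/100000)) (s := (41/10)) (θ := (9081/1250000))
      (by norm_num [psi])
      (by norm_num [psi, K])
      (by norm_num [psi, K])
      (by norm_num [psi, K])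
      (by norm_num [psi, K])
      (by norm_num [psi, K])
      (by norm_num [psi, K])
      (by norm_num [psi, K])
      (by norm_num [psi, K])
      (by norm_num [psi, K])
      (by norm_num [psi, K])
      (by norm_num)

lemma pn9 : ∀ l : ℕ, 1 ≤ l → 503 / 10000 * psi l + (5059/1000000) * cost (43/10) l ≤ (13989/2000000) :=
  pn_of (f := (5059/1000000)) (s := (43/10)) (θ := (13989/2000000))
      (by norm_num [psi])
      (by norm_num [psi, K])
      (by norm_num [psi, K])
      (by norm_num [psi, K])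
      (by norm_num [psi, K])
      (by norm_num [psi, K])
      (by norm_num [psi, K])
      (by norm_num [psi, K])
      (by norm_num [psi, K])
      (by norm_num [psi, K])
      (by norm_num [psi, K])
      (by norm_num)

lemma pn10 : ∀ l : ℕ, 1 ≤ l → 503 / 10000 * psi l + (4723/1000000) * cost (23/5) l ≤ (33157/5000000) :=
  pn_of (f := (4723/1000000)) (s := (23/5)) (θ := (33157/5000000))
      (by norm_num [psi])
      (by norm_num [psi, K])
      (by norm_num [psi, K])
      (by norm_num [psi, K])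
      (by norm_num [psi, K])
      (by norm_num [psi, K])
      (by norm_num [psi, K])
      (by norm_num [psi, K])
      (by norm_num [psi, K])
      (by norm_num [psi, K])
      (by norm_num [psi, K])
      (by norm_num)

lemma pnF : ∀ l : ℕ, 1 ≤ l → 503 / 10000 * psi l + (4723/1000000) * cost (23/5) l ≤ (33157/5000000) :=
  pn_of (f := (4723/1000000)) (s := (23/5)) (θ := (33157/5000000))
      (by norm_num [psi])
      (by norm_num [psi, K])
      (by norm_num [psi, K])
      (by norm_num [psi, K])
      (by norm_num [psi, K])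
      (by norm_num [psi, K])
      (by norm_num [psi, K])
      (by norm_num [psi, K])
      (by norm_num [psi, K])
      (by norm_num [psi, K])
      (by norm_num [psi, K])
      (by norm_num)

lemma pnT : ∀ l : ℕ, 1 ≤ l → 503 / 10000 * psi l + 0 * cost 0 l ≤ (15929/10000000) :=
  pn_of (f := 0) (s := 0) (θ := (15929/10000000))
      (by norm_num [psi])
      (by norm_num [psi, K])
      (by norm_num [psi, K])
      (by norm_num [psi, K])
      (by norm_num [psi, K])
      (by norm_num [psi, K])
      (by norm_num [psi, K])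
      (by norm_num [psi, K])
      (by norm_num [psi, K])
      (by norm_num [psi, K])
      (by norm_num [psi, K])
      (by norm_num)

lemma hE0 : (((13533/100000):ℝ)) ≤ Real.exp (-2) :=
  le_exp_neg (by norm_num) (by norm_num) (by norm_num) (by norm_num [Finset.sum_range_succ, Nat.factorial])

lemma hu0 : Real.exp (-(113 / 500 * (13533/100000) * (93/2))) ≤ (60297/250000) :=
  exp_neg_le (by norm_num) 12 (by norm_num) (by norm_num [Finset.sum_range_succ, Nat.factorial])

lemma hv0 : Real.exp (-(113 / 500 * (13533/100000) * (97/2))) ≤ (226877/1000000) :=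
  exp_neg_le (by norm_num) 12 (by norm_num) (by norm_num [Finset.sum_range_succ, Nat.factorial])

lemma hE1 : (((277/2500):ℝ)) ≤ Real.exp (-(11/5)) :=
  le_exp_neg (by norm_num) (by norm_num) (by norm_num) (by norm_num [Finset.sum_range_succ, Nat.factorial])

lemma hu1 : Real.exp (-(113 / 500 * (277/2500) * 19)) ≤ (124281/200000) :=
  exp_neg_le (by norm_num) 12 (by norm_num) (by norm_num [Finset.sum_range_succ, Nat.factorial])

lemma hv1 : Real.exp (-(113 / 500 * (277/2500) * (113/2))) ≤ (121487/500000) :=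
  exp_neg_le (by norm_num) 12 (by norm_num) (by norm_num [Finset.sum_range_succ, Nat.factorial])

lemma hE2 : (((24893/500000):ℝ)) ≤ Real.exp (-3) :=
  le_exp_neg (by norm_num) (by norm_num) (by norm_num) (by norm_num [Finset.sum_range_succ, Nat.factorial])

lemma hu2 : Real.exp (-(113 / 500 * (24893/500000) * 19)) ≤ (807527/1000000) :=
  exp_neg_le (by norm_num) 12 (by norm_num) (by norm_num [Finset.sum_range_succ, Nat.factorial])

lemma hv2 : Real.exp (-(113 / 500 * (24893/500000) * 59)) ≤ (514869/1000000) :=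
  exp_neg_le (by norm_num) 12 (by norm_num) (by norm_num [Finset.sum_range_succ, Nat.factorial])

lemma hE3 : (((18441/500000):ℝ)) ≤ Real.exp (-(33/10)) :=
  le_exp_neg (by norm_num) (by norm_num) (by norm_num) (by norm_num [Finset.sum_range_succ, Nat.factorial])

lemma hu3 : Real.exp (-(113 / 500 * (18441/500000) * 19)) ≤ (426767/500000) :=
  exp_neg_le (by norm_num) 12 (by norm_num) (by norm_num [Finset.sum_range_succ, Nat.factorial])

lemma hv3 : Real.exp (-(113 / 500 * (18441/500000) * 34)) ≤ (753219/1000000) :=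
  exp_neg_le (by norm_num) 12 (by norm_num) (by norm_num [Finset.sum_range_succ, Nat.factorial])

lemma hE4 : (((8343/250000):ℝ)) ≤ Real.exp (-(17/5)) :=
  le_exp_neg (by norm_num) (by norm_num) (by norm_num) (by norm_num [Finset.sum_range_succ, Nat.factorial])

lemma hu4 : Real.exp (-(113 / 500 * (8343/250000) * (31/2))) ≤ (444837/500000) :=
  exp_neg_le (by norm_num) 12 (by norm_num) (by norm_num [Finset.sum_range_succ, Nat.factorial])

lemma hv4 : Real.exp (-(113 / 500 * (8343/250000) * 24)) ≤ (834429/1000000) :=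
  exp_neg_le (by norm_num) 12 (by norm_num) (by norm_num [Finset.sum_range_succ, Nat.factorial])

lemma hE5 : (((30197/1000000):ℝ)) ≤ Real.exp (-(7/2)) :=
  le_exp_neg (by norm_num) (by norm_num) (by norm_num) (by norm_num [Finset.sum_range_succ, Nat.factorial])

lemma hu5 : Real.exp (-(113 / 500 * (30197/1000000) * (23/2))) ≤ (23113/25000) :=
  exp_neg_le (by norm_num) 12 (by norm_num) (by norm_num [Finset.sum_range_succ, Nat.factorial])

lemma hv5 : Real.exp (-(113 / 500 * (30197/1000000) * (41/2))) ≤ (217361/250000) :=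
  exp_neg_le (by norm_num) 12 (by norm_num) (by norm_num [Finset.sum_range_succ, Nat.factorial])

lemma hE6 : (((24723/1000000):ℝ)) ≤ Real.exp (-(37/10)) :=
  le_exp_neg (by norm_num) (by norm_num) (by norm_num) (by norm_num [Finset.sum_range_succ, Nat.factorial])

lemma hu6 : Real.exp (-(113 / 500 * (24723/1000000) * 12)) ≤ (935151/1000000) :=
  exp_neg_le (by norm_num) 12 (by norm_num) (by norm_num [Finset.sum_range_succ, Nat.factorial])

lemma hv6 : Real.exp (-(113 / 500 * (24723/1000000) * (43/2))) ≤ (886807/1000000) :=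
  exp_neg_le (by norm_num) 12 (by norm_num) (by norm_num [Finset.sum_range_succ, Nat.factorial])

lemma hE7 : (((20241/1000000):ℝ)) ≤ Real.exp (-(39/10)) :=
  le_exp_neg (by norm_num) (by norm_num) (by norm_num) (by norm_num [Finset.sum_range_succ, Nat.factorial])

lemma hu7 : Real.exp (-(113 / 500 * (20241/1000000) * (25/2))) ≤ (37777/40000) :=
  exp_neg_le (by norm_num) 12 (by norm_num) (by norm_num [Finset.sum_range_succ, Nat.factorial])

lemma hv7 : Real.exp (-(113 / 500 * (20241/1000000) * 22)) ≤ (452131/500000) :=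
  exp_neg_le (by norm_num) 12 (by norm_num) (by norm_num [Finset.sum_range_succ, Nat.factorial])

lemma hE8 : (((4143/250000):ℝ)) ≤ Real.exp (-(41/10)) :=
  le_exp_neg (by norm_num) (by norm_num) (by norm_num) (by norm_num [Finset.sum_range_succ, Nat.factorial])

lemma hu8 : Real.exp (-(113 / 500 * (4143/250000) * 13)) ≤ (952479/1000000) :=
  exp_neg_le (by norm_num) 12 (by norm_num) (by norm_num [Finset.sum_range_succ, Nat.factorial])

lemma hv8 : Real.exp (-(113 / 500 * (4143/250000) * (45/2))) ≤ (459593/500000) :=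
  exp_neg_le (by norm_num) 12 (by norm_num) (by norm_num [Finset.sum_range_succ, Nat.factorial])

lemma hE9 : (((212/15625):ℝ)) ≤ Real.exp (-(43/10)) :=
  le_exp_neg (by norm_num) (by norm_num) (by norm_num) (by norm_num [Finset.sum_range_succ, Nat.factorial])

lemma hu9 : Real.exp (-(113 / 500 * (212/15625) * (27/2))) ≤ (959451/1000000) :=
  exp_neg_le (by norm_num) 12 (by norm_num) (by norm_num [Finset.sum_range_succ, Nat.factorial])

lemma hv9 : Real.exp (-(113 / 500 * (212/15625) * 23)) ≤ (186381/200000) :=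
  exp_neg_le (by norm_num) 12 (by norm_num) (by norm_num [Finset.sum_range_succ, Nat.factorial])

lemma hE10 : (((10051/1000000):ℝ)) ≤ Real.exp (-(23/5)) :=
  le_exp_neg (by norm_num) (by norm_num) (by norm_num) (by norm_num [Finset.sum_range_succ, Nat.factorial])

lemma hu10 : Real.exp (-(113 / 500 * (10051/1000000) * 14)) ≤ (9687/10000) :=
  exp_neg_le (by norm_num) 12 (by norm_num) (by norm_num [Finset.sum_range_succ, Nat.factorial])

lemma hv10 : Real.exp (-(113 / 500 * (10051/1000000) * (57/2))) ≤ (468657/500000) :=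
  exp_neg_le (by norm_num) 12 (by norm_num) (by norm_num [Finset.sum_range_succ, Nat.factorial])

theorem numeric {V : Type*} (U : Finset V) (l : V → ℕ) (hl : ∀ u ∈ U, 1 ≤ l u) (q d : ℕ)
    (hd : 95 ≤ d) (hq : d + 5 ≤ 2 * q) (hU : U.card ≤ d) (μ : ℝ) (hμ0 : 0 ≤ μ)
    (hμ : ∀ s E : ℝ, 0 ≤ s → 0 < E → E ≤ Real.exp (-s) →
      E * ((1 + s) * q - ∑ u ∈ U, cost s (l u)) ≤ μ) :
    Real.exp (-(113 / 500 * μ)) ≤ 19 / 50 - (503 / 10000 * (95 / d)) * ∑ u ∈ U, psi (l u) := by
  classical
  set kk : ℝ := ∑ u ∈ U, (if l u = 1 then 1 else 0) with hkk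
  set SS : ℝ := ∑ u ∈ U, (if l u = 1 then 0 else K (l u)) with hSS
  set PP : ℝ := ∑ u ∈ U, psi (l u) with hPP
  have hd' : (95:ℝ) ≤ d := by exact_mod_cast hd
  have hdpos : (0:ℝ) < d := by linarith
  have hq' : (d:ℝ) + 5 ≤ 2 * q := by exact_mod_cast hq
  have hU' : (U.card : ℝ) ≤ d := by exact_mod_cast hU
  have hkk0 : 0 ≤ kk := sum_nonneg fun u _ => by split_ifs <;> norm_num
  have hSS0 : 0 ≤ SS := sum_nonneg fun u _ => by
    split_ifs
    · exact le_rfl
    · linarith [one_le_K (l u)]
  have hcost : ∀ s : ℝ, ∑ u ∈ U, cost s (l u) = (1 + s) * kk + SS := by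
    intro s
    rw [hkk, hSS, mul_sum, ← sum_add_distrib]
    apply sum_congr rfl
    intro u _
    unfold cost
    split_ifs <;> ring
  have hc : (0:ℝ) < 95 / d := by positivity
  set kh := 95 / (d:ℝ) * kk with hkh
  set Sh := 95 / (d:ℝ) * SS with hSh
  set Bh := (503 / 10000 * (95 / (d:ℝ))) * PP with hBh
  have hkh0 : 0 ≤ kh := mul_nonneg hc.le hkk0
  have hkd : kk = kh * d / 95 := by rw [hkh]; field_simp
  have hSd : SS = Sh * d / 95 := by rw [hSh]; field_simp
  have hsum : ∀ f s θ : ℝ, 0 ≤ θ → (∀ l : ℕ, 1 ≤ l → 503 / 10000 * psi l + f * cost s l ≤ θ) →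
      Bh + f * ((1 + s) * kh + Sh) ≤ 95 * θ := by
    intro f s θ hθ h
    have h1 : ∑ u ∈ U, (503 / 10000 * psi (l u) + f * cost s (l u)) ≤ ∑ _u ∈ U, θ :=
      sum_le_sum fun u hu => h (l u) (hl u hu)
    rw [sum_add_distrib, ← mul_sum, ← mul_sum, hcost, sum_const, nsmul_eq_mul] at h1
    have h2 : (U.card : ℝ) * θ ≤ d * θ := mul_le_mul_of_nonneg_right hU' hθ
    have h3 := mul_le_mul_of_nonneg_left (h1.trans h2) hc.le
    have h4 : 95 / (d:ℝ) * (d * θ) = 95 * θ := by field_simp
    rw [h4] at h3
    refine le_trans (le_of_eq ?_) h3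
    rw [hBh, hkh, hSh, hPP]
    ring
  -- the scaled quantity
  set Y : ℝ → ℝ := fun s => (1 + s) * (50 - kh) - Sh with hYdef
  have hmono : ∀ s s' : ℝ, s ≤ s' → Y s' ≤ Y s + (s' - s) * 50 := by
    intro s s' hss
    simp only [hYdef]
    nlinarith
  have hbase : ∀ s E : ℝ, 0 ≤ s → 0 < E → E ≤ Real.exp (-s) → 5 / 2 * (1 + s) ≤ Y s →
      E * Y s ≤ μ := by
    intro s E hs hE hE' hY
    refine le_trans ?_ (hμ s E hs hE hE')
    apply mul_le_mul_of_nonneg_left _ hE.le
    rw [hcost, hkd, hSd]
    simp only [hYdef] at hY ⊢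
    have h1 : (1 + s) * kh + Sh ≤ (1 + s) * (95 / 2) := by linarith
    have h2 : 0 ≤ ((d:ℝ) - 95) * ((1 + s) * (95 / 2) - ((1 + s) * kh + Sh)) :=
      mul_nonneg (by linarith) (by linarith)
    have h3 : (1 + s) * ((d:ℝ) + 5) ≤ (1 + s) * (2 * q) :=
      mul_le_mul_of_nonneg_left hq' (by linarith)
    nlinarith
  have hYeq : ∀ s f θ : ℝ, Bh + f * ((1 + s) * kh + Sh) ≤ 95 * θ →
      Bh + f * ((1 + s) * 50 - Y s) ≤ 95 * θ := by
    intro s f θ h
    simp only [hYdef]
    have : (1 + s) * 50 - ((1 + s) * (50 - kh) - Sh) = (1 + s) * kh + Sh := by ring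
    rw [this]; exact h
  -- top
  by_cases hT : (97/2) ≤ Y 2
  · have h1 := hbase 2 (13533/100000) (by norm_num) (by norm_num) hE0 (by linarith)
    have h2 := hsum 0 0 (15929/10000000) (by norm_num) pnT
    have h3 := hv0
    have h4 : Real.exp (-(113 / 500 * μ)) ≤ Real.exp (-(113 / 500 * (13533/100000) * (97/2))) := by
      apply Real.exp_le_exp.2
      linarith
    linarith
  have hhi0 : Y 2 ≤ (97/2) := (not_le.1 hT).le
  by_cases hc0 : (93/2) ≤ Y 2
  · exact cell hc0 hhi0 (by norm_num) (hbase 2 (13533/100000) (by norm_num) (by norm_num) hE0 (by linarith))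
      hu0 hv0 (by norm_num) (by norm_num) (hYeq _ _ _ (hsum (1431/200000) 2 (46279/5000000) (by norm_num) pn0))
  have hhi1 : Y (11/5) ≤ (113/2) := by
    have := hmono 2 (11/5) (by norm_num)
    have h' := (not_le.1 hc0).le
    linarith
  by_cases hc1 : 19 ≤ Y (11/5)
  · exact cell hc1 hhi1 (by norm_num) (hbase (11/5) (277/2500) (by norm_num) (by norm_num) hE1 (by linarith))
      hu1 hv1 (by norm_num) (by norm_num) (hYeq _ _ _ (hsum (2517/250000) (11/5) (61997/5000000) (by norm_num) pn1))
  have hhi2 : Y 3 ≤ 59 := by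
    have := hmono (11/5) 3 (by norm_num)
    have h' := (not_le.1 hc1).le
    linarith
  by_cases hc2 : 19 ≤ Y 3
  · exact cell hc2 hhi2 (by norm_num) (hbase 3 (24893/500000) (by norm_num) (by norm_num) hE2 (by linarith))
      hu2 hv2 (by norm_num) (by norm_num) (hYeq _ _ _ (hsum (731/100000) 3 (9423/1000000) (by norm_num) pn2))
  have hhi3 : Y (33/10) ≤ 34 := by
    have := hmono 3 (33/10) (by norm_num)
    have h' := (not_le.1 hc2).le
    linarith
  by_cases hc3 : 19 ≤ Y (33/10)
  · exact cell hc3 hhi3 (by norm_num) (hbase (33/10) (18441/500000) (by norm_num) (by norm_num) hE3 (by linarith))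
      hu3 hv3 (by norm_num) (by norm_num) (hYeq _ _ _ (hsum (6629/1000000) (33/10) (43441/5000000) (by norm_num) pn3))
  have hhi4 : Y (17/5) ≤ 24 := by
    have := hmono (33/10) (17/5) (by norm_num)
    have h' := (not_le.1 hc3).le
    linarith
  by_cases hc4 : (31/2) ≤ Y (17/5)
  · exact cell hc4 hhi4 (by norm_num) (hbase (17/5) (8343/250000) (by norm_num) (by norm_num) hE4 (by linarith))
      hu4 hv4 (by norm_num) (by norm_num) (hYeq _ _ _ (hsum (643/100000) (17/5) (42369/5000000) (by norm_num) pn4))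
  have hhi5 : Y (7/2) ≤ (41/2) := by
    have := hmono (17/5) (7/2) (by norm_num)
    have h' := (not_le.1 hc4).le
    linarith
  by_cases hc5 : (23/2) ≤ Y (7/2)
  · exact cell hc5 hhi5 (by norm_num) (hbase (7/2) (30197/1000000) (by norm_num) (by norm_num) hE5 (by linarith))
      hu5 hv5 (by norm_num) (by norm_num) (hYeq _ _ _ (hsum (3121/500000) (7/2) (20677/2500000) (by norm_num) pn5))
  have hhi6 : Y (37/10) ≤ (43/2) := by
    have := hmono (7/2) (37/10) (by norm_num)
    have h' := (not_le.1 hc5).le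
    linarith
  by_cases hc6 : 12 ≤ Y (37/10)
  · exact cell hc6 hhi6 (by norm_num) (hbase (37/10) (24723/1000000) (by norm_num) (by norm_num) hE6 (by linarith))
      hu6 hv6 (by norm_num) (by norm_num) (hYeq _ _ _ (hsum (5897/1000000) (37/10) (78983/10000000) (by norm_num) pn6))
  have hhi7 : Y (39/10) ≤ 22 := by
    have := hmono (37/10) (39/10) (by norm_num)
    have h' := (not_le.1 hc6).le
    linarith
  by_cases hc7 : (25/2) ≤ Y (39/10)
  · exact cell hc7 hhi7 (by norm_num) (hbase (39/10) (20241/1000000) (by norm_num) (by norm_num) hE7 (by linarith))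
      hu7 hv7 (by norm_num) (by norm_num) (hYeq _ _ _ (hsum (1397/250000) (39/10) (591/78125) (by norm_num) pn7))
  have hhi8 : Y (41/10) ≤ (45/2) := by
    have := hmono (39/10) (41/10) (by norm_num)
    have h' := (not_le.1 hc7).le
    linarith
  by_cases hc8 : 13 ≤ Y (41/10)
  · exact cell hc8 hhi8 (by norm_num) (hbase (41/10) (4143/250000) (by norm_num) (by norm_num) hE8 (by linarith))
      hu8 hv8 (by norm_num) (by norm_num) (hYeq _ _ _ (hsum (531/100000) (41/10) (9081/1250000) (by norm_num) pn8))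
  have hhi9 : Y (43/10) ≤ 23 := by
    have := hmono (41/10) (43/10) (by norm_num)
    have h' := (not_le.1 hc8).le
    linarith
  by_cases hc9 : (27/2) ≤ Y (43/10)
  · exact cell hc9 hhi9 (by norm_num) (hbase (43/10) (212/15625) (by norm_num) (by norm_num) hE9 (by linarith))
      hu9 hv9 (by norm_num) (by norm_num) (hYeq _ _ _ (hsum (5059/1000000) (43/10) (13989/2000000) (by norm_num) pn9))
  have hhi10 : Y (23/5) ≤ (57/2) := by
    have := hmono (43/10) (23/5) (by norm_num)
    have h' := (not_le.1 hc9).le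
    linarith
  by_cases hc10 : 14 ≤ Y (23/5)
  · exact cell hc10 hhi10 (by norm_num) (hbase (23/5) (10051/1000000) (by norm_num) (by norm_num) hE10 (by linarith))
      hu10 hv10 (by norm_num) (by norm_num) (hYeq _ _ _ (hsum (4723/1000000) (23/5) (33157/5000000) (by norm_num) pn10))
  -- bottom
  have h1 : Real.exp (-(113 / 500 * μ)) ≤ 1 := by
    rw [Real.exp_le_one_iff]; linarith
  have h2 := hYeq _ _ _ (hsum (4723/1000000) (23/5) (33157/5000000) (by norm_num) pnF)
  have h3 := (not_le.1 hc10).le
  linarith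

end Pool.Agent.MP_7aba48_co
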