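import Mathlib
import Pool.Agent.Lib.MP_7aba48_co.Main
import Pool.Agent.Lib.MP_7aba48_co.Num2

set_option autoImplicit false

namespace Pool.Agent.MP_7aba48_co

open Finset

lemma cost_nonneg {s : ℝ} (hs : 0 ≤ s) (l : ℕ) : 0 ≤ cost s l := by
  unfold cost
  split_ifs
  · linarith
  · linarith [one_le_K l]

/-- tangent bound for the product over the lists containing a colour -/
lemma prod_ge {V : Type*} [DecidableEq V] (W : Finset V) (l : V → ℕ) (hl : ∀ u ∈ W, 1 ≤ l u)
    (s E : ℝ) (hs : 0 ≤ s) (hE : 0 < E) (hE' : E ≤ Real.exp (-s)) :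
    E * (1 + s - ∑ u ∈ W, cost s (l u) / l u) ≤ ∏ u ∈ W, (1 - 1 / (l u : ℝ)) := by
  by_cases h1 : ∃ u ∈ W, l u = 1
  · obtain ⟨u, hu, hu1⟩ := h1
    have hz : ∏ u ∈ W, (1 - 1 / (l u : ℝ)) = 0 := by
      apply prod_eq_zero hu
      rw [hu1]; norm_num
    rw [hz]
    have h2 : cost s (l u) / l u ≤ ∑ u ∈ W, cost s (l u) / l u :=
      single_le_sum (f := fun u => cost s (l u) / (l u : ℝ))
        (fun x _ => div_nonneg (cost_nonneg hs _) (by positivity)) hu
    have h3 : cost s (l u) / l u = 1 + s := by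
      rw [hu1]; unfold cost; simp
    apply mul_nonpos_of_nonneg_of_nonpos hE.le
    linarith
  · push Not at h1
    set x := ∑ u ∈ W, cost s (l u) / l u with hx
    have hprod : Real.exp (-x) ≤ ∏ u ∈ W, (1 - 1 / (l u : ℝ)) := by
      rw [hx, ← sum_neg_distrib, Real.exp_sum]
      apply prod_le_prod
      · intro u _; exact (Real.exp_pos _).le
      · intro u hu
        have h2 : 2 ≤ l u := by
          have := hl u hu
          have := h1 u hu
          omega
        have h3 : cost s (l u) = K (l u) := by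
          unfold cost; rw [if_neg (h1 u hu)]
        rw [h3]
        exact exp_neg_K_le h2
    refine le_trans ?_ hprod
    by_cases hneg : 1 + s - x ≤ 0
    · exact (mul_nonpos_of_nonneg_of_nonpos hE.le hneg).trans (Real.exp_pos _).le
    · push Not at hneg
      have h4 : Real.exp (-x) = Real.exp (-s) * Real.exp (s - x) := by
        rw [← Real.exp_add]; congr 1; ring
      rw [h4]
      have h5 := Real.add_one_le_exp (s - x)
      calc E * (1 + s - x) ≤ Real.exp (-s) * (1 + s - x) :=
            mul_le_mul_of_nonneg_right hE' hneg.le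
        _ ≤ Real.exp (-s) * Real.exp (s - x) :=
            mul_le_mul_of_nonneg_left (by linarith) (Real.exp_pos _).le

theorem localIneq (V C : Type*) [DecidableEq V] [DecidableEq C] (q d : ℕ) (hd : 95 ≤ d)
    (hq : d + 5 ≤ 2 * q) :
    LocalIneq V C q d (113 / 500) (19 / 50) (503 / 10000 * (95 / d)) := by
  intro U L T hT hU hL
  set l : V → ℕ := fun u => (L u).card with hl
  have hl1 : ∀ u ∈ U, 1 ≤ l u := fun u hu => (hL u hu).card_pos
  set p : C → ℝ := fun c => ∏ u ∈ U, (if c ∈ L u then 1 - 1 / ((L u).card : ℝ) else 1) with hp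
  have hpfilter : ∀ c, p c = ∏ u ∈ U.filter (fun u => c ∈ L u), (1 - 1 / (l u : ℝ)) := by
    intro c
    rw [hp, prod_filter]
  have hp0 : ∀ c, 0 ≤ p c := by
    intro c
    rw [hpfilter]
    apply prod_nonneg
    intro u hu
    have : (1:ℝ) ≤ l u := by exact_mod_cast hl1 u (mem_filter.1 hu).1
    have h2 : 1 / (l u : ℝ) ≤ 1 := by rw [div_le_one (by linarith)]; exact this
    linarith
  set μ := ∑ c ∈ T, p c with hμ
  have hμ0 : 0 ≤ μ := sum_nonneg fun c _ => hp0 c
  have hprod : ∏ c ∈ T, (1 - 113 / 500 * p c) ≤ Real.exp (-(113 / 500 * μ)) := by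
    rw [hμ, mul_sum, ← sum_neg_distrib, Real.exp_sum]
    apply prod_le_prod
    · intro c _
      have h1 : p c ≤ 1 := by
        rw [hpfilter]
        apply prod_le_one
        · intro u hu
          have : (1:ℝ) ≤ l u := by exact_mod_cast hl1 u (mem_filter.1 hu).1
          have h2 : 1 / (l u : ℝ) ≤ 1 := by rw [div_le_one (by linarith)]; exact this
          linarith
        · intro u _
          have : (0:ℝ) ≤ 1 / (l u : ℝ) := by positivity
          linarith
      linarith
    · intro c _
      have := Real.add_one_le_exp (-(113 / 500 * p c))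
      linarith
  refine hprod.trans ?_
  have hnum := numeric U l hl1 q d hd hq hU μ hμ0 ?_
  · refine hnum.trans (le_of_eq ?_)
    congr 1
  · intro s E hs hE hE'
    have h1 : ∀ c ∈ T, E * (1 + s - ∑ u ∈ U.filter (fun u => c ∈ L u), cost s (l u) / l u) ≤ p c := by
      intro c _
      rw [hpfilter]
      exact prod_ge _ l (fun u hu => hl1 u (mem_filter.1 hu).1) s E hs hE hE'
    refine le_trans ?_ (sum_le_sum h1)
    rw [← mul_sum]
    apply mul_le_mul_of_nonneg_left _ hE.le
    rw [sum_sub_distrib, sum_const, nsmul_eq_mul, hT]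
    have h2 : ∑ c ∈ T, ∑ u ∈ U.filter (fun u => c ∈ L u), cost s (l u) / (l u : ℝ) ≤
        ∑ u ∈ U, cost s (l u) := by
      have h3 : ∑ c ∈ T, ∑ u ∈ U.filter (fun u => c ∈ L u), cost s (l u) / (l u : ℝ) =
          ∑ u ∈ U, ∑ c ∈ T, if c ∈ L u then cost s (l u) / (l u : ℝ) else 0 := by
        rw [sum_comm]
        apply sum_congr rfl
        intro c _
        rw [sum_filter]
      rw [h3]
      apply sum_le_sum
      intro u hu
      rw [← sum_filter, sum_const, nsmul_eq_mul]
      have hlu : (0:ℝ) < l u := by exact_mod_cast hl1 u hu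
      have h4 : ((T.filter (fun c => c ∈ L u)).card : ℝ) ≤ l u := by
        have : (T.filter (fun c => c ∈ L u)).card ≤ (L u).card :=
          card_le_card fun c hc => (mem_filter.1 hc).2
        exact_mod_cast this
      calc ((T.filter (fun c => c ∈ L u)).card : ℝ) * (cost s (l u) / l u)
          ≤ l u * (cost s (l u) / l u) :=
            mul_le_mul_of_nonneg_right h4 (div_nonneg (cost_nonneg hs _) hlu.le)
        _ = cost s (l u) := by field_simp
    nlinarith [h2]

/-- choosability of triangle-free graphs: lists of size `q ≥ 50` suffice for maximum degree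
at most `2 q - 4` -/
theorem choosable {V : Type*} [Fintype V] (G : SimpleGraph V) (q : ℕ) (hq : 50 ≤ q)
    (hG : G.CliqueFree 3) (hdeg : ∀ v, (G.neighborSet v).ncard + 4 ≤ 2 * q)
    (Λ : V → Finset ℕ) (hΛ : ∀ v, q ≤ (Λ v).card) :
    ∃ f : V → ℕ, (∀ v, f v ∈ Λ v) ∧ ∀ u v, G.Adj u v → f u ≠ f v := by
  classical
  -- shrink the lists
  choose Λ' hsub hcard using fun v => exists_subset_card_eq (hΛ v)
  have hdeg' : ∀ v, (univ.filter (fun w => G.Adj v w)).card ≤ (2 * q - 5) + 1 := by
    intro v
    have h1 := hdeg v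
    have h2 : (G.neighborSet v).ncard = (univ.filter (fun w => G.Adj v w)).card := by
      rw [← Set.ncard_coe_finset]
      congr 1
      ext w; simp
    omega
  have hG' : ∀ x y z, G.Adj x y → G.Adj x z → ¬ G.Adj y z := by
    intro x y z hxy hxz hyz
    refine hG {x, y, z} ?_
    rw [SimpleGraph.is3Clique_triple_iff]
    exact ⟨hxy, hxz, hyz⟩
  have hloc := localIneq V ℕ q (2 * q - 5) (by omega) (by omega)
  have hne := col_nonempty (G := G) (c₀ := (0:ℕ)) (Λ := Λ') (by norm_num) (by norm_num)
    (by norm_num) (by positivity) hloc hG' hdeg' hcard univ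
  obtain ⟨f, hf⟩ := hne
  rw [mem_Col] at hf
  exact ⟨f, fun v => hsub v (hf.1 v (mem_univ v)), fun u v h => hf.2.2 u (mem_univ u) v (mem_univ v) h⟩

end Pool.Agent.MP_7aba48_co
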